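import Pool.Agent.Lib.MP_5c0a14_an.Core
import Pool.Agent.Lib.MP_5c0a14_an.UMain
import Pool.Agent.Lib.MP_5c0a14_an.Star

/-!
# MP_5c0a14_an, Q1, lower bound

`HallHP.ClassS K` is the class `S(K)` of the problem and `HallHP.alphaStar` its best constant
(file `Pool/Agent/Lib/MP_5c0a14_an/Defs.lean`).
-/

namespace Pool.Agent.Results.MP_5c0a14_an.LowerBound

open HallHP

/-- Every `u ∈ S(K)` satisfies `u(r) ≤ -(9/20) K` for all `r > 0`; in particular `9/20 ≤ α*`. -/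
theorem result :
    (∀ K : ℝ, 0 < K → ∀ u : ℂ → EReal, ClassS K u → ∀ r : ℝ, 0 < r →
      u (r : ℂ) ≤ ((-(9 / 20 * K) : ℝ) : EReal)) ∧
    9 / 20 ≤ alphaStar :=
  ⟨fun _ hK _ hu _ hr => hall_lower hK hu hr,
    le_alphaStar hall_upper (by norm_num) fun _ hK _ hu _ hr => hall_lower hK hu hr⟩

end Pool.Agent.Results.MP_5c0a14_an.LowerBound
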