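import Pool.Agent.Lib.MP_5c0a14_an.VMain
import Pool.Agent.Lib.MP_5c0a14_an.Star

/-!
# MP_5c0a14_an, Q1, upper bound

`HallHP.ClassS K` is the class `S(K)` of the problem and `HallHP.alphaStar` its best constant
(file `Pool/Agent/Lib/MP_5c0a14_an/Defs.lean`).
-/

namespace Pool.Agent.Results.MP_5c0a14_an.UpperBound

open HallHP

/-- Some `u ∈ S(1)` has `u(1) > -47/100`; in particular `α* ≤ 47/100`. -/
theorem result :
    (∃ u : ℂ → EReal, ClassS 1 u ∧ ((-(47 / 100) : ℝ) : EReal) < u 1) ∧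
    alphaStar ≤ 47 / 100 :=
  ⟨HallV.upper, alphaStar_le HallV.upper⟩

end Pool.Agent.Results.MP_5c0a14_an.UpperBound
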